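import Pool.Agent.H53.Lib.R_seed8.W401.Cheb.Asm2

/-! Chebotarev's theorem from the parts. -/

set_option autoImplicit false
set_option linter.unusedSectionVars false

namespace Pool.Agent.W401.Cheb

open NumberField Filter Topology Finset

lemma nt_aux {f o k : ℕ} (hk : 0 < k) (hf : 0 < f) (h1 : o ∣ f ^ k) (h2 : ¬ f ∣ o) :
    ∃ l ∈ f.primeFactors, o ∣ f ^ k / l ^ k := by
  have ho : o ≠ 0 := by rintro rfl; exact h2 (dvd_zero _)
  rw [← Nat.factorization_le_iff_dvd hf.ne' ho] at h2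
  rw [Finsupp.le_iff] at h2
  push Not at h2
  obtain ⟨l, hl, hlt⟩ := h2
  rw [Nat.support_factorization] at hl
  have hlp := Nat.prime_of_mem_primeFactors hl
  have hlf : l ∣ f := Nat.dvd_of_mem_primeFactors hl
  refine ⟨l, hl, ?_⟩
  have hfk : f ^ k ≠ 0 := pow_ne_zero _ hf.ne'
  have hlk : l ^ k ≠ 0 := pow_ne_zero _ hlp.ne_zero
  have h3 : l ^ k * o ∣ f ^ k := by
    rw [← Nat.factorization_le_iff_dvd (mul_ne_zero hlk ho) hfk]
    intro m
    rw [Nat.factorization_mul hlk ho, Nat.factorization_pow, Nat.factorization_pow,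
      Nat.Prime.factorization hlp]
    simp only [Finsupp.coe_add, Finsupp.coe_smul, Pi.add_apply, Pi.smul_apply, smul_eq_mul]
    by_cases hm : m = l
    · subst hm
      rw [Finsupp.single_eq_same]
      obtain ⟨k', rfl⟩ : ∃ k', k = k' + 1 := ⟨k - 1, by omega⟩
      obtain ⟨v, hv⟩ : ∃ v, f.factorization m = v + 1 := ⟨f.factorization m - 1, by omega⟩
      rw [hv] at hlt ⊢
      nlinarith [Nat.zero_le (k' * v)]
    · rw [Finsupp.single_eq_of_ne (by tauto), mul_zero, zero_add]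
      have := (Nat.factorization_le_iff_dvd ho hfk).mpr h1 m
      rwa [Nat.factorization_pow] at this
  obtain ⟨c, hc⟩ := h3
  refine ⟨c, ?_⟩
  rw [hc, mul_assoc, Nat.mul_div_cancel_left _ (Nat.pos_of_ne_zero hlk)]

lemma roots_finite {r : ℕ} (hr : 0 < r) : {ζ : ℂˣ | ζ ^ r = 1}.Finite := by
  have h : Nat.card {ζ : ℂˣ // ζ ^ r = 1} ≠ 0 := by rw [card_roots r hr]; exact hr.ne'
  have : Finite {ζ : ℂˣ // ζ ^ r = 1} := (Nat.card_ne_zero.mp h).2
  exact Set.finite_coe_iff.mp this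

lemma roots_card {r : ℕ} (hr : 0 < r) : (roots_finite hr).toFinset.card = r := by
  have h1 := card_roots r hr
  exact (Nat.subtype_card _ (fun ζ => by simp)).symm.trans h1

/-- most roots of unity of order dividing `f ^ k` have order divisible by `f` -/
lemma card_good {f k : ℕ} (hf : 0 < f) (hk : 0 < k) : ∃ B : Finset ℂˣ,
    (∀ ζ ∈ B, ζ ^ (f ^ k) = 1 ∧ f ∣ orderOf ζ) ∧ (1 - f / 2 ^ k : ℝ) * (f ^ k : ℕ) ≤ B.card := by
  classical
  have hr : 0 < f ^ k := pow_pos hf k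
  set A := (roots_finite hr).toFinset with hA
  have hAc : A.card = f ^ k := roots_card hr
  have hdiv : ∀ l ∈ f.primeFactors, 0 < f ^ k / l ^ k := by
    intro l hl
    exact Nat.div_pos (Nat.pow_le_pow_left (Nat.le_of_mem_primeFactors hl) k)
      (pow_pos (Nat.prime_of_mem_primeFactors hl).pos k)
  let C : ℕ → Finset ℂˣ := fun l => if h : 0 < f ^ k / l ^ k then (roots_finite h).toFinset else ∅
  have hC : ∀ l ∈ f.primeFactors, ((C l).card : ℝ) ≤ (f ^ k : ℕ) / 2 ^ k := by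
    intro l hl
    have h0 := hdiv l hl
    have h1 : (C l).card = f ^ k / l ^ k := by
      simp only [C, dif_pos h0]
      exact roots_card h0
    rw [h1]
    refine Nat.cast_div_le.trans ?_
    have h2 : (2 : ℝ) ≤ l := by exact_mod_cast (Nat.prime_of_mem_primeFactors hl).two_le
    push_cast
    gcongr
  refine ⟨A.filter fun ζ => f ∣ orderOf ζ, ?_, ?_⟩
  · intro ζ hζ
    rw [mem_filter, hA, Set.Finite.mem_toFinset] at hζ
    exact hζ
  · have h1 : (A.filter fun ζ => ¬ f ∣ orderOf ζ) ⊆ f.primeFactors.biUnion C := by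
      intro ζ hζ
      rw [mem_filter, hA, Set.Finite.mem_toFinset] at hζ
      obtain ⟨l, hl, hdvd⟩ := nt_aux hk hf (orderOf_dvd_of_pow_eq_one hζ.1) hζ.2
      rw [mem_biUnion]
      refine ⟨l, hl, ?_⟩
      simp only [C, dif_pos (hdiv l hl)]
      rw [Set.Finite.mem_toFinset]
      exact orderOf_dvd_iff_pow_eq_one.mp hdvd
    have h2 : ((A.filter fun ζ => ¬ f ∣ orderOf ζ).card : ℝ) ≤ f * ((f ^ k : ℕ) / 2 ^ k) := by
      have h3 : ((A.filter fun ζ => ¬ f ∣ orderOf ζ).card : ℝ) ≤ ∑ l ∈ f.primeFactors, ((C l).card : ℝ) := by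
        exact_mod_cast (card_le_card h1).trans card_biUnion_le
      refine h3.trans ((sum_le_card_nsmul _ _ _ hC).trans ?_)
      rw [nsmul_eq_mul]
      have h4 : f.primeFactors.card ≤ f := by
        have : f.primeFactors ⊆ Icc 1 f := by
          intro l hl
          rw [mem_Icc]
          exact ⟨(Nat.prime_of_mem_primeFactors hl).one_lt.le, Nat.le_of_mem_primeFactors hl⟩
        exact (card_le_card this).trans (by simp)
      gcongr
    have h5 := card_filter_add_card_filter_not (s := A) (fun ζ => f ∣ orderOf ζ)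
    have h6 : ((A.filter fun ζ => f ∣ orderOf ζ).card : ℝ) +
        ((A.filter fun ζ => ¬ f ∣ orderOf ζ).card : ℝ) = (f ^ k : ℕ) := by
      rw [← hAc]; exact_mod_cast h5
    have h7 : (1 - f / 2 ^ k : ℝ) * (f ^ k : ℕ) = (f ^ k : ℕ) - f * ((f ^ k : ℕ) / 2 ^ k) := by ring
    rw [h7]
    linarith

/-- lower bound -/
lemma lower (hTor : TaskTor) (hAux : TaskAux) (hMean : TaskMean) (L : Type) [Field L]
    [NumberField L] [IsGalois ℚ L] (g : Gal(L/ℚ)) (ε : ℝ) (hε : 0 < ε) :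
    ∀ᶠ N in atTop, 1 - ε ≤ M (fun p => (xp L g p : ℝ)) N := by
  classical
  set f := orderOf g with hfdef
  have hf : 0 < f := orderOf_pos g
  obtain ⟨k, hk0, hk⟩ : ∃ k : ℕ, 0 < k ∧ (f : ℝ) / 2 ^ k < ε / 2 := by
    obtain ⟨k, hk⟩ := pow_unbounded_of_one_lt (f / (ε / 2)) (one_lt_two (α := ℝ))
    refine ⟨k + 1, by omega, ?_⟩
    rw [div_lt_iff₀ (by positivity)]
    rw [div_lt_iff₀ (by positivity)] at hk
    have : (2 : ℝ) ^ k ≤ 2 ^ (k + 1) := pow_le_pow_right₀ (by norm_num) (by omega)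
    nlinarith
  have hr : 0 < f ^ k := pow_pos hf k
  obtain ⟨q, _, χ, L', _, _, _, _, ω, res, hχ, hres, hω, hsurj, D₁, hD₁, hFr⟩ := hAux L (f ^ k) hr
  obtain ⟨D₂, hD₂, hT2⟩ := hTor L
  obtain ⟨D₃, hD₃, hT3⟩ := hTor L'
  obtain ⟨B, hB, hBc⟩ := card_good hf hk0
  have hnd : ∀ p : ℕ, ¬ p ∣ D₁ * D₂ * D₃ → ¬ p ∣ D₁ ∧ ¬ p ∣ D₂ ∧ ¬ p ∣ D₃ := fun p hp =>
    ⟨fun h => hp (dvd_mul_of_dvd_left (dvd_mul_of_dvd_left h _) _),
      fun h => hp (dvd_mul_of_dvd_left (dvd_mul_of_dvd_right h _) _),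
      fun h => hp (dvd_mul_of_dvd_right h _)⟩
  have hkey : ∀ ζ ∈ B, Tendsto (M fun p => if χ p = ζ then (xp L g p : ℝ) else 0) atTop
      (𝓝 (1 / ((f ^ k : ℕ) : ℝ))) := by
    intro ζ hζ
    refine key hr hω hsurj (hB ζ hζ).1 (hB ζ hζ).2 hres χ hχ (D := D₁ * D₂ * D₃) (by positivity)
      (fun p _ hp => hT2 p (hnd p hp).2.1) (fun p _ hp => hT3 p (hnd p hp).2.2)
      (fun p _ hp => hFr p (hnd p hp).1) hMean
  have hsum : Tendsto (M fun p => ∑ ζ ∈ B, if χ p = ζ then (xp L g p : ℝ) else 0) atTop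
      (𝓝 (∑ _ζ ∈ B, 1 / ((f ^ k : ℕ) : ℝ))) := by
    have := tendsto_finsetSum B hkey
    exact this.congr fun N => (M_sum B _ N).symm
  have hval : 1 - ε / 2 < ∑ _ζ ∈ B, 1 / ((f ^ k : ℕ) : ℝ) := by
    rw [sum_const, nsmul_eq_mul, mul_one_div, lt_div_iff₀ (by exact_mod_cast hr)]
    have h1 : (0 : ℝ) < ((f ^ k : ℕ) : ℝ) := by exact_mod_cast hr
    nlinarith
  have hev := hsum.eventually (lt_mem_nhds hval)
  filter_upwards [hev] with N hN
  have h1 : M (fun p => ∑ ζ ∈ B, if χ p = ζ then (xp L g p : ℝ) else 0) N ≤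
      M (fun p => (xp L g p : ℝ)) N := by
    refine M_mono (fun p _ => ?_) N
    by_cases h : ∃ ζ ∈ B, χ p = ζ
    · obtain ⟨ζ, hζ, h2⟩ := h
      rw [sum_eq_single ζ]
      · rw [if_pos h2]
      · intro ζ' _ hne
        rw [if_neg]
        intro h3
        exact hne (Units.ext (h3.symm.trans h2))
      · intro h3; exact absurd hζ h3
    · push Not at h
      rw [sum_eq_zero fun ζ hζ => if_neg (h ζ hζ)]
      exact Nat.cast_nonneg _
  linarith

lemma squeeze_family {ι : Type*} [Fintype ι] [DecidableEq ι] (a : ι → ℕ → ℝ)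
    (h1 : ∀ i, ∀ ε : ℝ, 0 < ε → ∀ᶠ N in atTop, 1 - ε ≤ a i N)
    (h2 : Tendsto (fun N => ∑ i, a i N) atTop (𝓝 (Fintype.card ι : ℝ))) (i : ι) :
    Tendsto (a i) atTop (𝓝 1) := by
  rw [Metric.tendsto_nhds]
  intro ε hε
  set n : ℝ := (Fintype.card ι : ℝ) with hn
  have hn0 : 1 ≤ Fintype.card ι := Fintype.card_pos_iff.mpr ⟨i⟩
  have hn1 : 1 ≤ n := by rw [hn]; exact_mod_cast hn0
  set δ := ε / (2 * n + 2) with hδ
  have hδ0 : 0 < δ := by positivity
  have hall : ∀ᶠ N in atTop, ∀ j, 1 - δ ≤ a j N := Filter.eventually_all.mpr fun j => h1 j δ hδ0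
  have hs := h2.eventually (gt_mem_nhds (show n < n + δ by linarith))
  filter_upwards [hall, hs] with N hN hsN
  rw [Real.dist_eq, abs_lt]
  have hle : δ ≤ ε / 2 := by
    rw [hδ]
    exact div_le_div_of_nonneg_left hε.le (by norm_num) (by linarith)
  have hrest : (n - 1) * (1 - δ) ≤ ∑ j ∈ univ.erase i, a j N := by
    have h3 := card_nsmul_le_sum (univ.erase i) (fun j => a j N) (1 - δ) fun j _ => hN j
    rw [card_erase_of_mem (mem_univ i), card_univ, nsmul_eq_mul, Nat.cast_sub hn0] at h3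
    push_cast at h3
    exact h3
  have hsplit : ∑ j, a j N = a i N + ∑ j ∈ univ.erase i, a j N :=
    (add_sum_erase univ (fun j => a j N) (mem_univ i)).symm
  have hnδ : δ * (2 * n + 2) = ε := by rw [hδ]; field_simp
  constructor
  · have := hN i
    linarith
  · nlinarith

/-- **Chebotarev's density theorem** from the parts -/
theorem chebotarev_of (hTor : TaskTor) (hAux : TaskAux) (hMean : TaskMean) : Chebotarev := by
  classical
  intro L _ _ _ g
  refine squeeze_family (fun g => M fun p => (xp L g p : ℝ))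
    (fun g ε hε => lower hTor hAux hMean L g ε hε) ?_ g
  obtain ⟨D, hD, hT⟩ := hTor L
  have h1 : Tendsto (M fun p => ∑ g : Gal(L/ℚ), (xp L g p : ℝ)) atTop
      (𝓝 (Fintype.card Gal(L/ℚ) : ℝ)) := by
    have h2 := M_one.const_mul (Fintype.card Gal(L/ℚ) : ℝ)
    rw [mul_one] at h2
    have h3 := h2.congr fun N => (M_smul _ _ N).symm
    refine M_congr hD (fun p hp hpD => ?_) h3
    have : Fact p.Prime := ⟨hp⟩
    have h4 := sum_xp (hT p hpD)
    rw [Nat.card_eq_fintype_card] at h4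
    rw [mul_one]
    exact_mod_cast h4
  exact h1.congr fun N => M_sum _ _ N

end Pool.Agent.W401.Cheb
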