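import Pool.Agent.H53.Lib.R_seed8.W401.Cheb.Asm3
import Pool.Agent.H53.Lib.R_seed8.W515.Cheb.Mean
import Pool.Agent.H53.Lib.R_seed8.W45.ChCont
import Pool.Agent.H53.Lib.R_seed8.W54.Cheb.Tor
import Pool.Agent.H53.Lib.R_seed8.W540.CH.ChAux

/-!
# Chebotarev's density theorem (natural density) for Galois extensions of `ℚ`

`L / ℚ` a finite Galois extension, `g ∈ Gal(L/ℚ)`.  `xp L g p` is the number of ring homomorphisms
`φ : 𝓞 L → F̄_p` with `φ (g x) = φ x ^ p` for all `x`; for all but finitely many `p` it is the order of
the centraliser of `g` if `g` is a Frobenius element at `p`, and `0` otherwise.  Its mean value over the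
primes is `1`.
-/

set_option autoImplicit false

namespace Pool.Agent.W401.Cheb

open NumberField Filter Topology

/-- **Chebotarev's density theorem** -/
theorem chebotarev : Chebotarev :=
  chebotarev_of W54.ChTor.main Pool.Agent.W540.CH.main
    (Pool.Agent.W515.Cheb.main Pool.Agent.W45.ChCont.main)

/-- the torsor property holds at all but finitely many primes -/
theorem torsor (L : Type) [Field L] [NumberField L] [IsGalois ℚ L] :
    ∃ D : ℕ, 0 < D ∧ ∀ (p : ℕ) [Fact p.Prime], ¬ p ∣ D → TorAt L p :=
  W54.ChTor.main L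

/-- every element is a Frobenius element at infinitely many primes -/
theorem infinite_frob (L : Type) [Field L] [NumberField L] [IsGalois ℚ L] (g : Gal(L/ℚ)) :
    {p : ℕ | p.Prime ∧ xp L g p ≠ 0}.Infinite := by
  intro hfin
  obtain ⟨B, hB⟩ := hfin.bddAbove
  have h1 := chebotarev L g
  have h2 : Tendsto (M fun p => (xp L g p : ℝ)) atTop (𝓝 0) := by
    refine M_congr (D := (B + 1).factorial) (Nat.factorial_pos _) (b := fun _ => 0) ?_ ?_
    · intro p hp hpB
      by_contra h
      have h3 : xp L g p ≠ 0 := by
        intro h4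
        exact h (by rw [h4]; simp)
      have h4 : p ≤ B := hB ⟨hp, h3⟩
      exact hpB (Nat.dvd_factorial hp.pos (by omega))
    · unfold M
      simp
  have h3 := tendsto_nhds_unique h1 h2
  norm_num at h3

end Pool.Agent.W401.Cheb
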